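import Pool.Agent.H21.L.R_pool_sql_team_seeded_2aa45f1a.Q5.MS.Gen

/-!
# The leading coefficient from the sharp products in logarithmic mean square
-/

set_option autoImplicit false

open MeasureTheory Filter Topology Set Complex
open Pool.Agent.TH942.ES
open Pool.Agent.TH270.MS
open Pool.Agent.TH270.RS (cS' dat')

namespace Pool.Agent.Q5.MS

variable {X : Type} {d : ℕ} {N : X → ℕ} {α : X → Fin d → ℂ} {Ψ G₀ : ℂ → ℂ} {k κ : ℕ} {η C : ℝ}

/-- **The criterion for the leading coefficient**: real exponents, poles allowed -/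
theorem lead_real (H : Mc N α Ψ G₀ k κ η C) (ρ : ℝ) {A : ℝ} (hA : 0 < A) : List.TFAE [
    (∀ s : ℂ, 0 < s.re → Ψ s ≠ 0) ∧ ∃ m : ℤ, ρ = m ∧
      Tendsto (fun s => Ψ s / s ^ m) (𝓝[≠] 0) (𝓝 (A : ℂ)),
    IntegrableOn (fun Y : ℝ => DvR N α ρ A Y ^ 2 / Y) (Ioi (Real.exp 1)),
    Tendsto (fun Y : ℝ => (∫ y in Real.exp 1..Y, |DvR N α ρ A y| / y) / Real.log Y) atTop
      (𝓝 0)] := by
  obtain ⟨e, g, p, he, Q⟩ := H.cn
  have t := Q.tfae ρ (ρ * Real.eulerMascheroniConstant - Real.log A)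
  have key : ∀ m : ℤ, ρ = m → (((∀ s : ℂ, 0 < s.re → Ψ s ≠ 0) ∧
      Tendsto (fun s => Ψ s / s ^ m) (𝓝[≠] 0) (𝓝 (A : ℂ))) ↔
      IntegrableOn (fun Y : ℝ => DvR N α ρ A Y ^ 2 / Y) (Ioi (Real.exp 1))) := by
    intro m hm
    have h1 : ((∀ s : ℂ, 0 < s.re → Ψ s ≠ 0) ∧
        Tendsto (fun s => Ψ s / s ^ m) (𝓝[≠] 0) (𝓝 (A : ℂ))) ↔
        IntegrableOn (fun Y : ℝ => Dv N α m A Y ^ 2 / Y) (Ioi (Real.exp 1)) :=
      (H.tfae_lead m hA).out 0 1
    rw [h1, hm]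
    rfl
  tfae_have 1 → 2 := by
    rintro ⟨h1, m, hm, h2⟩
    exact (key m hm).1 ⟨h1, h2⟩
  tfae_have 2 → 1 := by
    intro h
    have h2 := (dvR_sq H.E he ρ A).1 h
    obtain ⟨h3, h4, -⟩ := (t.out 0 1).2 h2
    have h5 : ρ = (((p : ℤ) - (k : ℤ) : ℤ) : ℝ) := by
      push_cast
      linarith
    obtain ⟨h6, h7⟩ := (key _ h5).2 h
    exact ⟨h6, _, h5, h7⟩
  tfae_have 2 ↔ 3 := by
    rw [tendsto_exp_iff (f := fun Y => (∫ y in Real.exp 1..Y, |DvR N α ρ A y| / y) / Real.log Y),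
      dvR_sq H.E he]
    have h0 : (fun T : ℝ => (∫ y in Real.exp 1..Real.exp T, |DvR N α ρ A y| / y) /
        Real.log (Real.exp T)) =ᶠ[atTop] fun T : ℝ => (∫ u in (1 : ℝ)..T,
          |Sh (lamS N e) (cS' N α e) u - ρ * Real.log u -
            (ρ * Real.eulerMascheroniConstant - Real.log A)|) / T := by
      filter_upwards [eventually_ge_atTop 1] with T hT
      rw [Real.log_exp, dvR_abs H.E he ρ A hT]
    rw [tendsto_congr' h0]
    exact t.out 1 2
  tfae_finish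

/-- the sum over the squares of the primes -/
noncomputable def Sq (N : X → ℕ) (α : X → Fin d → ℂ) (Y : ℝ) : ℝ :=
  ∑ᶠ (v : X) (_ : √Y < N v ∧ (N v : ℝ) ≤ Y), cP N α (v, 1)

theorem bm_dvR (H : Mc N α Ψ G₀ k κ η C) (ρ A : ℝ) : BM (DvR N α ρ A) := by
  have h := ((bm_pl H).add ((BM.const ρ).mul ((BM.const Real.eulerMascheroniConstant).add
    BM.loglog))).sub (BM.const (Real.log A))
  exact h

theorem tail_lim (E : Sys N α) {c : ℝ} (hc : Tendsto (Sq N α) atTop (𝓝 c)) :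
    Tendsto (fun Y => Pv N α Y + Pl N α Y) atTop (𝓝 (-c)) := by
  obtain ⟨K, hK⟩ := sharp_tail E
  have h1 : Tendsto (fun Y : ℝ => Pv N α Y + Pl N α Y + Sq N α Y) atTop (𝓝 0) := by
    have h2 : Tendsto (fun x : ℝ => K * x ^ (-(1 / 12 : ℝ))) atTop (𝓝 0) := by
      have := (tendsto_rpow_neg_atTop (y := 1 / 12) (by norm_num)).const_mul K
      rwa [mul_zero] at this
    refine squeeze_zero_norm' ?_ h2
    filter_upwards [eventually_ge_atTop 1] with Y hY
    rw [Real.norm_eq_abs]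
    exact hK Y hY
  have h2 := h1.sub hc
  rw [zero_sub] at h2
  refine h2.congr fun Y => ?_
  ring

/-- **The leading coefficient from the product over the primes** -/
theorem lead_prime (H : Mc N α Ψ G₀ k κ η C) (ρ : ℝ) {A : ℝ} (hA : 0 < A) {c : ℝ}
    (hc : Tendsto (Sq N α) atTop (𝓝 c)) :
    ((∀ s : ℂ, 0 < s.re → Ψ s ≠ 0) ∧ ∃ m : ℤ, ρ = m ∧
      Tendsto (fun s => Ψ s / s ^ m) (𝓝[≠] 0) (𝓝 (A : ℂ))) ↔
    Tendsto (fun Y : ℝ => (∫ y in Real.exp 1..Y, |Pv N α y + c -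
      (ρ * (Real.eulerMascheroniConstant + Real.log (Real.log y)) - Real.log A)| / y) /
        Real.log Y) atTop (𝓝 0) := by
  refine ((lead_real H ρ hA).out 0 2).trans ?_
  have b1 := bm_dvR H ρ A
  have b2 : BM fun y => Pv N α y + c -
      (ρ * (Real.eulerMascheroniConstant + Real.log (Real.log y)) - Real.log A) :=
    ((bm_pv H.E).add (BM.const c)).sub (((BM.const ρ).mul ((BM.const
      Real.eulerMascheroniConstant).add BM.loglog)).sub (BM.const (Real.log A)))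
  have h1 : Tendsto (fun y => (Pv N α y + c -
      (ρ * (Real.eulerMascheroniConstant + Real.log (Real.log y)) - Real.log A)) -
      -DvR N α ρ A y) atTop (𝓝 0) := by
    have h2 := (tail_lim H.E hc).add_const c
    rw [neg_add_cancel] at h2
    refine h2.congr fun y => ?_
    unfold DvR
    ring
  have h2 := lmean_iff b2.li b1.neg.li h1
  simp only [abs_neg] at h2
  exact h2.symm

end Pool.Agent.Q5.MS
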