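import Pool.Agent.H21.L.R_seed8.TH270.MS.Tail
import Pool.Agent.H21.L.R_seed8.TH270.MS.BM

/-!
# The sharp product over the primes of a system in logarithmic mean
-/

set_option autoImplicit false

open MeasureTheory Filter Topology Set Complex
open Pool.Agent.TH942.ES
open Pool.Agent.TH270.MS
open Pool.Agent.TH942.LS (Dat)
open Pool.Agent.TH270.RS (cS' dat')

namespace Pool.Agent.Q5.MS

variable {X : Type} {d : ℕ} {N : X → ℕ} {α : X → Fin d → ℂ} {Ψ G₀ : ℂ → ℂ} {k κ : ℕ} {η C : ℝ}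

/-- the logarithm of the product over the primes `≤ Y` -/
noncomputable def Pv (N : X → ℕ) (α : X → Fin d → ℂ) (Y : ℝ) : ℝ :=
  ∑ᶠ (v : X) (_ : (N v : ℝ) ≤ Y), cv N α v

theorem pv_eq (E : Sys N α) (Y : ℝ) : Pv N α Y = ∑ v ∈ (E.fin_le Y).toFinset, cv N α v :=
  finsum_mem_eq_finite_toFinset_sum (fun v : X => cv N α v) (E.fin_le Y)

/-- Mertens: the sum of `1/N v` over `√Y < N v ≤ Y` is bounded -/
theorem mertens (E : Sys N α) : ∃ M : ℝ, ∀ Y : ℝ, Real.exp 1 ≤ Y →
    ∀ s : Finset X, (∀ v ∈ s, √Y < N v ∧ (N v : ℝ) ≤ Y) → ∑ v ∈ s, 1 / (N v : ℝ) ≤ M := by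
  obtain ⟨C, σ₀, hσ₀, hC⟩ := E.log_sum
  -- large `Y`: `σ = 1/log Y < σ₀`
  set T₀ : ℝ := max (2 / σ₀) 1 with hT₀
  have hT1 : 1 ≤ T₀ := le_max_right _ _
  -- the number of primes below `exp T₀`
  set A : Finset X := (E.fin_le (Real.exp T₀)).toFinset with hA
  refine ⟨max (∑ v ∈ A, 1 / (N v : ℝ)) (2 * Real.exp 1 * C), fun Y hY s hs => ?_⟩
  have hY0 : 0 < Y := (Real.exp_pos 1).trans_le hY
  rcases le_or_gt Y (Real.exp T₀) with h | h
  · refine le_trans ?_ (le_max_left _ _)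
    refine Finset.sum_le_sum_of_subset_of_nonneg (fun v hv => ?_) fun v _ _ => by positivity
    rw [hA, Set.Finite.mem_toFinset]
    exact (hs v hv).2.trans h
  · refine le_trans ?_ (le_max_right _ _)
    set T := Real.log Y with hT
    have hTT : T₀ < T := by
      rw [hT, Real.lt_log_iff_exp_lt hY0]
      exact h
    have hT0 : 0 < T := by linarith
    have hσ : 0 < 1 / T := by positivity
    have hσ1 : 1 / T < σ₀ := by
      rw [div_lt_iff₀ hT0]
      have h1 : 2 / σ₀ ≤ T₀ := le_max_left _ _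
      rw [div_le_iff₀ hσ₀] at h1
      nlinarith
    obtain ⟨h1, h2⟩ := hC (1 / T) hσ hσ1
    have h3 : ∀ v ∈ s, 1 / (N v : ℝ) ≤
        2 * Real.exp 1 / T * (Real.log (N v) * (N v : ℝ) ^ (-(1 + 1 / T))) := by
      intro v hv
      obtain ⟨h4, h5⟩ := hs v hv
      have hN := E.Npos v
      have h6 : T / 2 < Real.log (N v) := by
        have h7 := Real.log_lt_log (Real.sqrt_pos.2 hY0) h4
        rwa [Real.log_sqrt hY0.le] at h7
      have h8 : Real.log (N v) ≤ T := Real.log_le_log hN h5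
      have h9 : (N v : ℝ) ^ (-(1 + 1 / T)) = 1 / (N v : ℝ) * Real.exp (-(Real.log (N v) / T)) := by
        have h9' : Real.log (N v) * -(1 / T) = -(Real.log (N v) / T) := by ring
        rw [neg_add, Real.rpow_add hN, Real.rpow_neg_one, Real.rpow_def_of_pos hN _, h9', one_div]
      have h10 : Real.exp (-1) ≤ Real.exp (-(Real.log (N v) / T)) := by
        apply Real.exp_le_exp.2
        rw [neg_le_neg_iff, div_le_one hT0]
        exact h8
      rw [h9]
      have h11 : 2 * Real.exp 1 / T * (Real.log (N v) * (1 / (N v : ℝ) *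
          Real.exp (-(Real.log (N v) / T)))) = (1 / (N v : ℝ)) *
          ((2 * Real.log (N v) / T) * (Real.exp 1 * Real.exp (-(Real.log (N v) / T)))) := by ring
      rw [h11]
      have h12 : 1 ≤ 2 * Real.log (N v) / T := by
        rw [le_div_iff₀ hT0]
        linarith
      have h13 : 1 ≤ Real.exp 1 * Real.exp (-(Real.log (N v) / T)) := by
        have : Real.exp 1 * Real.exp (-1) = 1 := by rw [← Real.exp_add]; simp
        nlinarith [Real.exp_pos 1]
      have h14 : 1 ≤ (2 * Real.log (N v) / T) * (Real.exp 1 * Real.exp (-(Real.log (N v) / T))) := by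
        nlinarith
      have h15 : 0 ≤ 1 / (N v : ℝ) := by positivity
      nlinarith
    calc ∑ v ∈ s, 1 / (N v : ℝ) ≤
          ∑ v ∈ s, 2 * Real.exp 1 / T * (Real.log (N v) * (N v : ℝ) ^ (-(1 + 1 / T))) :=
          Finset.sum_le_sum h3
      _ = 2 * Real.exp 1 / T * ∑ v ∈ s, Real.log (N v) * (N v : ℝ) ^ (-(1 + 1 / T)) := by
          rw [Finset.mul_sum]
      _ ≤ 2 * Real.exp 1 / T * ∑' v, Real.log (N v) * (N v : ℝ) ^ (-(1 + 1 / T)) := by
          apply mul_le_mul_of_nonneg_left _ (by positivity)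
          exact h1.sum_le_tsum _ fun v _ => mul_nonneg (E.logN v).le (by
            have := E.Npos v
            positivity)
      _ = 2 * Real.exp 1 * (1 / T * ∑' v, Real.log (N v) * (N v : ℝ) ^ (-(1 + 1 / T))) := by ring
      _ ≤ _ := by gcongr

/-- `log P` and the sum over the prime powers differ by a bounded function -/
theorem close (E : Sys N α) : ∃ M : ℝ, ∀ Y : ℝ, Real.exp 1 ≤ Y →
    |Pv N α Y + Pl N α Y| ≤ M := by
  classical
  obtain ⟨K, hK⟩ := sharp_tail E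
  obtain ⟨M, hM⟩ := mertens E
  refine ⟨|K| + d * M, fun Y hY => ?_⟩
  have hY1 : (1 : ℝ) ≤ Y := by linarith [Real.add_one_le_exp 1]
  have h1 := hK Y hY1
  have h2 : K * Y ^ (-(1 / 12 : ℝ)) ≤ |K| := by
    have h3 : Y ^ (-(1 / 12 : ℝ)) ≤ 1 := Real.rpow_le_one_of_one_le_of_nonpos hY1 (by norm_num)
    have h4 : 0 ≤ Y ^ (-(1 / 12 : ℝ)) := by positivity
    calc K * Y ^ (-(1 / 12 : ℝ)) ≤ |K| * Y ^ (-(1 / 12 : ℝ)) := by
          gcongr
          exact le_abs_self K
      _ ≤ |K| * 1 := by gcongr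
      _ = |K| := mul_one _
  have hB : {v : X | √Y < N v ∧ (N v : ℝ) ≤ Y}.Finite := (E.fin_le Y).subset fun v hv => hv.2
  have e2 : (∑ᶠ (v : X) (_ : √Y < N v ∧ (N v : ℝ) ≤ Y), cP N α (v, 1)) =
      ∑ v ∈ hB.toFinset, cP N α (v, 1) :=
    finsum_mem_eq_finite_toFinset_sum (fun v : X => cP N α (v, 1)) hB
  have h5 : |∑ v ∈ hB.toFinset, cP N α (v, 1)| ≤ d * M := by
    refine (Finset.abs_sum_le_sum_abs _ _).trans ?_
    have h6 : ∀ v ∈ hB.toFinset, |cP N α (v, 1)| ≤ d * (1 / (N v : ℝ)) := by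
      intro v _
      have h7 := E.cP_abs (v, 1)
      simp only at h7
      have h8 : (1 / √(N v : ℝ)) ^ (1 + 1) = 1 / (N v : ℝ) := by
        rw [div_pow, one_pow, show 1 + 1 = 2 from rfl, Real.sq_sqrt (E.Npos v).le]
      rwa [h8] at h7
    refine (Finset.sum_le_sum h6).trans ?_
    rw [← Finset.mul_sum]
    refine mul_le_mul_of_nonneg_left ?_ (Nat.cast_nonneg d)
    refine hM Y hY _ fun v hv => ?_
    rw [Set.Finite.mem_toFinset] at hv
    exact hv
  rw [e2] at h1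
  have h6 : Pv N α Y + Pl N α Y = (Pv N α Y + Pl N α Y + ∑ v ∈ hB.toFinset, cP N α (v, 1)) -
      ∑ v ∈ hB.toFinset, cP N α (v, 1) := by ring
  rw [h6]
  refine (abs_sub _ _).trans (add_le_add (h1.trans h2) h5)

theorem bm_pv (E : Sys N α) : BM (Pv N α) := by
  classical
  have hfl : ∀ y : ℝ, Real.exp 1 ≤ y → Pv N α y = Pv N α ((⌊y⌋₊ : ℕ) : ℝ) := by
    intro y hy
    have hy0 : 0 ≤ y := ((Real.exp_pos 1).trans_le hy).le
    unfold Pv
    refine finsum_congr fun v => ?_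
    have : ((N v : ℝ) ≤ y) = ((N v : ℝ) ≤ ((⌊y⌋₊ : ℕ) : ℝ)) := by
      rw [Nat.cast_le, Nat.le_floor_iff hy0]
    rw [this]
  refine ⟨?_, fun Y => ⟨∑ v ∈ (E.fin_le Y).toFinset, |cv N α v|, fun y _ hy => ?_⟩⟩
  · have h1 : Measurable fun y : ℝ => Pv N α ((⌊y⌋₊ : ℕ) : ℝ) :=
      (measurable_from_nat (f := fun n : ℕ => Pv N α (n : ℝ))).comp Nat.measurable_floor
    refine h1.aestronglyMeasurable.congr ?_
    filter_upwards [ae_restrict_mem measurableSet_Ioi] with y hy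
    exact (hfl y (le_of_lt hy)).symm
  · rw [pv_eq E]
    refine (Finset.abs_sum_le_sum_abs _ _).trans ?_
    refine Finset.sum_le_sum_of_subset_of_nonneg (fun v hv => ?_) fun _ _ _ => abs_nonneg _
    rw [Set.Finite.mem_toFinset] at hv ⊢
    exact le_trans hv hy

theorem bm_pl (H : Mc N α Ψ G₀ k κ η C) : BM (Pl N α) := by
  obtain ⟨M, hM⟩ := close H.E
  refine BM.of_close (f := fun x => -Pv N α x) (M := M) (bm_pv H.E).neg (pl_meas H) fun y hy => ?_
  have h2 : -Pv N α y - Pl N α y = -(Pv N α y + Pl N α y) := by ring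
  rw [h2, abs_neg]
  exact hM y hy

/-- **The criterion for the order**: real exponents, poles allowed -/
theorem order_real (H : Mc N α Ψ G₀ k κ η C) (ρ : ℝ) : List.TFAE [
    (∀ s : ℂ, 0 < s.re → Ψ s ≠ 0) ∧ ∃ m : ℤ, ρ = m ∧ meromorphicOrderAt Ψ 0 = m,
    ∃ A : ℝ, 0 < A ∧ IntegrableOn (fun Y : ℝ => DvR N α ρ A Y ^ 2 / Y) (Ioi (Real.exp 1)),
    ∃ B : ℝ, ∀ᶠ Y : ℝ in atTop,
      ∫ y in Real.exp 1..Y, |Pl N α y + ρ * Real.log (Real.log y)| / y ≤ B * Real.log Y,
    ∃ B : ℝ, ∀ᶠ Y : ℝ in atTop,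
      ∫ y in Real.exp 1..Y, |Pv N α y - ρ * Real.log (Real.log y)| / y ≤ B * Real.log Y] := by
  obtain ⟨e, g, p, he, Q⟩ := H.cn
  have hord := (mero_of Q.hg Q.hg0 (local_form H.hη H.hΨ Q.near)).2
  have t := Q.tfae' ρ
  rw [H.zf] at t
  have e1 : (p : ℝ) = (k : ℕ) + ρ ↔ ∃ m : ℤ, ρ = m ∧ meromorphicOrderAt Ψ 0 = m := by
    rw [hord]
    constructor
    · intro h
      refine ⟨(p : ℤ) - k, ?_, rfl⟩
      push_cast
      linarith
    · rintro ⟨m, h1, h2⟩
      have h3 : (p : ℤ) - (k : ℤ) = m := by exact_mod_cast h2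
      rw [h1, ← h3]
      push_cast
      ring
  rw [e1] at t
  tfae_have 1 → 2 := by
    intro h
    obtain ⟨q, hq⟩ : ∃ q : ℝ, IntegrableOn (fun T : ℝ => (Sh (lamS N e) (cS' N α e) T -
      ρ * Real.log T - q) ^ 2) (Ioi 1) := (t.out 0 1).1 h
    refine ⟨Real.exp (ρ * Real.eulerMascheroniConstant - q), Real.exp_pos _, ?_⟩
    rw [dvR_sq H.E he, Real.log_exp, sub_sub_cancel]
    exact hq
  tfae_have 2 → 1 := by
    rintro ⟨A, -, hA⟩
    rw [dvR_sq H.E he] at hA
    have h2 : ∃ q : ℝ, IntegrableOn (fun T : ℝ => (Sh (lamS N e) (cS' N α e) T -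
      ρ * Real.log T - q) ^ 2) (Ioi 1) := ⟨_, hA⟩
    exact (t.out 0 1).2 h2
  tfae_have 1 ↔ 3 := by
    have t2 : ((∀ s : ℂ, 0 < s.re → Ψ s ≠ 0) ∧ ∃ m : ℤ, ρ = m ∧
        meromorphicOrderAt Ψ 0 = m) ↔
        ∃ B : ℝ, ∀ᶠ T : ℝ in atTop, ∫ u in (1 : ℝ)..T,
          |Sh (lamS N e) (cS' N α e) u - ρ * Real.log u| ≤ B * T := t.out 0 2
    rw [t2]
    refine exists_congr fun B => ?_
    rw [eventually_exp_iff (f := fun Y => ∫ y in Real.exp 1..Y,
      |Pl N α y + ρ * Real.log (Real.log y)| / y ≤ B * Real.log Y)]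
    refine eventually_congr ?_
    filter_upwards [eventually_ge_atTop 1] with T hT
    rw [Real.log_exp, ← cov_ii _ hT]
    have : ∫ X in Real.exp 1..Real.exp T, |Sh (lamS N e) (cS' N α e) (Real.log X) -
        ρ * Real.log (Real.log X)| / X =
        ∫ y in Real.exp 1..Real.exp T, |Pl N α y + ρ * Real.log (Real.log y)| / y := by
      refine intervalIntegral.integral_congr fun Y hY => ?_
      rw [uIcc_of_le (Real.exp_le_exp.2 hT)] at hY
      have h0 : 0 < Y := (Real.exp_pos 1).trans_le hY.1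
      rw [sh_eq H.E he, Real.exp_log h0, ← abs_neg]
      congr 2
      ring
    rw [this]
  tfae_have 3 ↔ 4 := by
    obtain ⟨M, hM⟩ := close H.E
    have bm1 : BM fun x => Pv N α x - ρ * Real.log (Real.log x) :=
      (bm_pv H.E).sub ((BM.const ρ).mul BM.loglog)
    have bm2 : BM fun x => -(Pl N α x + ρ * Real.log (Real.log x)) :=
      ((bm_pl H).add ((BM.const ρ).mul BM.loglog)).neg
    have hd : ∀ x : ℝ, Real.exp 1 ≤ x → |(Pv N α x - ρ * Real.log (Real.log x)) -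
        -(Pl N α x + ρ * Real.log (Real.log x))| ≤ M := by
      intro x hx
      have h1 : (Pv N α x - ρ * Real.log (Real.log x)) -
        -(Pl N α x + ρ * Real.log (Real.log x)) = Pv N α x + Pl N α x := by ring
      rw [h1]
      exact hM x hx
    constructor
    · intro h
      refine bmean_of bm2.li bm1.li (M := M) (fun x hx => ?_) ?_
      · rw [abs_sub_comm]
        exact hd x hx
      · simp only [abs_neg]
        exact h
    · intro h
      have h1 := bmean_of bm1.li bm2.li hd h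
      simpa only [abs_neg] using h1
  tfae_finish

end Pool.Agent.Q5.MS
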