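import Pool.Agent.H21.L.R_seed8.TH270.MS.Tail
import Pool.Agent.H21.L.R_seed8.TH270.RS.Sys

/-!
# The Riesz means of the product over the primes of a system
-/

set_option autoImplicit false

open MeasureTheory Filter Topology Set Complex
open Pool.Agent.TH942.ES
open Pool.Agent.TH942.RZ (rzw)
open Pool.Agent.TH270.RS (Mw)

namespace Pool.Agent.Q5.MS

variable {X : Type} {d : ℕ} {N : X → ℕ} {α : X → Fin d → ℂ}

theorem rzw_zero {k u : ℝ} (hk : 0 < k) (hu : 1 ≤ u) : rzw k u = 0 := by
  unfold rzw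
  rw [max_eq_right (by linarith), Real.zero_rpow hk.ne']

theorem rzw_nonneg (k u : ℝ) : 0 ≤ rzw k u := Real.rpow_nonneg (le_max_right _ _) _

theorem rzw_le {k u : ℝ} (hk : 0 < k) (hu : 0 ≤ u) : rzw k u ≤ 1 := by
  unfold rzw
  exact Real.rpow_le_one (le_max_right _ _) (max_le (by linarith) zero_le_one) hk.le

theorem rzw_anti {k u v : ℝ} (hk : 0 < k) (huv : u ≤ v) : rzw k v ≤ rzw k u := by
  unfold rzw
  exact Real.rpow_le_rpow (le_max_right _ _) (max_le_max (by linarith) le_rfl) hk.le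

/-- the weight is Lipschitz at `0` -/
theorem rzw_diff {k : ℝ} (hk : 0 < k) {u : ℝ} (hu : 0 < u) :
    |rzw k (2 * u) - rzw k u| ≤ (4 + 2 * k) * u := by
  have h0 : rzw k (2 * u) ≤ rzw k u := rzw_anti hk (by linarith)
  rw [abs_sub_comm, abs_of_nonneg (by linarith)]
  rcases le_or_gt (1 / 4) u with h | h
  · have h1 := rzw_le hk hu.le
    have h2 := rzw_nonneg k (2 * u)
    nlinarith
  · have h1 : rzw k u = (1 - u) ^ k := by
      unfold rzw
      rw [max_eq_left (by linarith)]
    have h2 : rzw k (2 * u) = (1 - 2 * u) ^ k := by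
      unfold rzw
      rw [max_eq_left (by linarith)]
    set t := u / (1 - u) with ht
    have h1u : 0 < 1 - u := by linarith
    have ht0 : 0 ≤ t := by positivity
    have ht1 : t ≤ 4 / 3 * u := by
      rw [ht, div_le_iff₀ h1u]
      nlinarith
    have htl : t ≤ 1 / 3 := by linarith
    have h3 : (1 - 2 * u) = (1 - u) * (1 - t) := by
      rw [ht]
      field_simp
      ring
    have h4 : (1 - 2 * u) ^ k = (1 - u) ^ k * (1 - t) ^ k := by
      rw [h3, Real.mul_rpow h1u.le (by linarith)]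
    have h5 : 1 - (1 + k) * t ≤ (1 - t) ^ k := by
      rcases le_or_gt 1 k with hk1 | hk1
      · have h6 := one_add_mul_self_le_rpow_one_add (s := -t) (by linarith) hk1
        have h7 : 1 + k * -t = 1 - k * t := by ring
        rw [h7, ← sub_eq_add_neg] at h6
        nlinarith
      · have h6 : (1 - t) ^ (1 : ℝ) ≤ (1 - t) ^ k :=
          Real.rpow_le_rpow_of_exponent_ge (by linarith) (by linarith) hk1.le
        rw [Real.rpow_one] at h6
        nlinarith
    have h6 : 0 ≤ (1 - u) ^ k := Real.rpow_nonneg h1u.le _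
    have h7 : (1 - u) ^ k ≤ 1 := Real.rpow_le_one h1u.le (by linarith) hk.le
    rw [h1, h2, h4]
    have h8 : (1 - u) ^ k - (1 - u) ^ k * (1 - t) ^ k ≤ (1 - u) ^ k * ((1 + k) * t) := by
      nlinarith
    have h9 : (1 - u) ^ k * ((1 + k) * t) ≤ 1 * ((1 + k) * t) := by
      gcongr
    have h10 : (1 + k) * t ≤ (1 + k) * (4 / 3 * u) := by gcongr
    nlinarith

/-- the Riesz mean of the logarithm of the product over the primes -/
noncomputable def Sv (N : X → ℕ) (α : X → Fin d → ℂ) (k Y : ℝ) : ℝ :=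
  ∑ᶠ (v : X) (_ : (N v : ℝ) ≤ Y), rzw k (Real.log (N v) / Real.log Y) * cv N α v

theorem log_bound (E : Sys N α) : ∃ M : ℝ, 0 ≤ M ∧ ∀ Y : ℝ, Real.exp 1 ≤ Y →
    ∀ s : Finset X, (∀ v ∈ s, (N v : ℝ) ≤ Y) →
      ∑ v ∈ s, Real.log (N v) / (N v : ℝ) ≤ M * Real.log Y := by
  obtain ⟨C, σ₀, hσ₀, hC⟩ := E.log_sum
  set T₀ : ℝ := max (2 / σ₀) 1 with hT₀
  have hT1 : 1 ≤ T₀ := le_max_right _ _
  set A : Finset X := (E.fin_le (Real.exp T₀)).toFinset with hA
  set B : ℝ := ∑ v ∈ A, Real.log (N v) / (N v : ℝ) with hB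
  have hB0 : 0 ≤ B := Finset.sum_nonneg fun v _ => div_nonneg (E.logN v).le (E.Npos v).le
  refine ⟨max B (Real.exp 1 * C), le_max_of_le_left hB0, fun Y hY s hs => ?_⟩
  have hY0 : 0 < Y := (Real.exp_pos 1).trans_le hY
  have hlY : 1 ≤ Real.log Y := by
    rw [← Real.log_exp 1]
    exact Real.log_le_log (Real.exp_pos 1) hY
  rcases le_or_gt Y (Real.exp T₀) with h | h
  · have h1 : ∑ v ∈ s, Real.log (N v) / (N v : ℝ) ≤ B := by
      refine Finset.sum_le_sum_of_subset_of_nonneg (fun v hv => ?_)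
        fun v _ _ => div_nonneg (E.logN v).le (E.Npos v).le
      rw [hA, Set.Finite.mem_toFinset]
      exact (hs v hv).trans h
    have h2 : B ≤ max B (Real.exp 1 * C) * Real.log Y := by
      have h3 := le_max_left B (Real.exp 1 * C)
      have h4 : 0 ≤ max B (Real.exp 1 * C) := hB0.trans h3
      nlinarith
    exact h1.trans h2
  · set T := Real.log Y with hT
    have hTT : T₀ < T := by
      rw [hT, Real.lt_log_iff_exp_lt hY0]
      exact h
    have hT0 : 0 < T := by linarith
    have hσ : 0 < 1 / T := by positivity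
    have hσ1 : 1 / T < σ₀ := by
      rw [div_lt_iff₀ hT0]
      have h1 : 2 / σ₀ ≤ T₀ := le_max_left _ _
      rw [div_le_iff₀ hσ₀] at h1
      nlinarith
    obtain ⟨h1, h2⟩ := hC (1 / T) hσ hσ1
    have h3 : ∀ v ∈ s, Real.log (N v) / (N v : ℝ) ≤
        Real.exp 1 * (Real.log (N v) * (N v : ℝ) ^ (-(1 + 1 / T))) := by
      intro v hv
      have h5 := hs v hv
      have hN := E.Npos v
      have h8 : Real.log (N v) ≤ T := Real.log_le_log hN h5
      have h9 : (N v : ℝ) ^ (-(1 + 1 / T)) = 1 / (N v : ℝ) * Real.exp (-(Real.log (N v) / T)) := by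
        have h9' : Real.log (N v) * -(1 / T) = -(Real.log (N v) / T) := by ring
        rw [neg_add, Real.rpow_add hN, Real.rpow_neg_one, Real.rpow_def_of_pos hN _, h9', one_div]
      have h10 : Real.exp (-1) ≤ Real.exp (-(Real.log (N v) / T)) := by
        apply Real.exp_le_exp.2
        rw [neg_le_neg_iff, div_le_one hT0]
        exact h8
      rw [h9]
      have h13 : 1 ≤ Real.exp 1 * Real.exp (-(Real.log (N v) / T)) := by
        have : Real.exp 1 * Real.exp (-1) = 1 := by rw [← Real.exp_add]; simp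
        nlinarith [Real.exp_pos 1]
      have h15 : 0 ≤ Real.log (N v) / (N v : ℝ) := div_nonneg (E.logN v).le hN.le
      have h16 : Real.exp 1 * (Real.log (N v) * (1 / (N v : ℝ) *
          Real.exp (-(Real.log (N v) / T)))) = Real.log (N v) / (N v : ℝ) *
            (Real.exp 1 * Real.exp (-(Real.log (N v) / T))) := by ring
      rw [h16]
      nlinarith
    calc ∑ v ∈ s, Real.log (N v) / (N v : ℝ) ≤
          ∑ v ∈ s, Real.exp 1 * (Real.log (N v) * (N v : ℝ) ^ (-(1 + 1 / T))) :=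
          Finset.sum_le_sum h3
      _ = Real.exp 1 * ∑ v ∈ s, Real.log (N v) * (N v : ℝ) ^ (-(1 + 1 / T)) := by
          rw [Finset.mul_sum]
      _ ≤ Real.exp 1 * ∑' v, Real.log (N v) * (N v : ℝ) ^ (-(1 + 1 / T)) := by
          apply mul_le_mul_of_nonneg_left _ (by positivity)
          exact h1.sum_le_tsum _ fun v _ => mul_nonneg (E.logN v).le (by
            have := E.Npos v
            positivity)
      _ = Real.exp 1 * (1 / T * ∑' v, Real.log (N v) * (N v : ℝ) ^ (-(1 + 1 / T))) * T := by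
          field_simp
      _ ≤ Real.exp 1 * C * T := by gcongr
      _ ≤ _ := by
          gcongr
          exact le_max_right _ _

open Pool.Agent.TH270.MS (Tail.cP_hasSum)

theorem one_prime (E : Sys N α) {k : ℝ} (hk : 0 < k) {T : ℝ} (hT : 0 < T) {n : ℕ} (v : X)
    (hn : ∀ j : ℕ, n ≤ j → T ≤ (j + 1) * Real.log (N v)) :
    |rzw k (Real.log (N v) / T) * cv N α v +
      ∑ j ∈ Finset.range n, rzw k (((j : ℝ) + 1) * Real.log (N v) / T) * cP N α (v, j)| ≤
      d * (4 + 2 * k) * (Real.log (N v) / T / N v) + 4 * d * (N v : ℝ) ^ (-(3 / 2 : ℝ)) := by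
  have hN := E.Npos v
  have hlog := E.logN v
  set u := Real.log (N v) / T with hu
  have hu0 : 0 < u := div_pos hlog hT
  have e0 : ∀ j : ℕ, ((j : ℝ) + 1) * Real.log (N v) / T = ((j : ℝ) + 1) * u := fun j => by
    rw [hu]; ring
  simp only [e0]
  have h1 := Pool.Agent.TH270.MS.Tail.cP_hasSum E v
  have h2 : HasSum (fun j : ℕ => rzw k (((j : ℝ) + 1) * u) * cP N α (v, j))
      (∑ j ∈ Finset.range n, rzw k (((j : ℝ) + 1) * u) * cP N α (v, j)) := by
    apply hasSum_sum_of_ne_finset_zero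
    intro j hj
    rw [Finset.mem_range, not_lt] at hj
    rw [rzw_zero hk, zero_mul]
    rw [hu, ← mul_div_assoc, le_div_iff₀ hT, one_mul]
    exact hn j hj
  have h3 : HasSum (fun j : ℕ => (rzw k (((j : ℝ) + 1) * u) - rzw k u) * cP N α (v, j))
      (rzw k u * cv N α v + ∑ j ∈ Finset.range n, rzw k (((j : ℝ) + 1) * u) * cP N α (v, j)) := by
    have h4 := h2.sub (h1.mul_left (rzw k u))
    have e1 : (∑ j ∈ Finset.range n, rzw k (((j : ℝ) + 1) * u) * cP N α (v, j)) -
        rzw k u * -cv N α v = rzw k u * cv N α v +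
          ∑ j ∈ Finset.range n, rzw k (((j : ℝ) + 1) * u) * cP N α (v, j) := by ring
    rw [e1] at h4
    refine h4.congr_fun fun j => ?_
    ring
  -- the terms
  set q : ℝ := 1 / √(N v : ℝ) with hq
  have hq0 : 0 < q := by
    have := Real.sqrt_pos.2 hN
    positivity
  have hq2 : q ^ 2 = 1 / (N v : ℝ) := by
    rw [hq, div_pow, one_pow, Real.sq_sqrt hN.le]
  have hq1 : q ≤ 3 / 4 := by
    have h5 : q ^ 2 ≤ 1 / 2 := by
      rw [hq2]
      exact one_div_le_one_div_of_le two_pos (E.Ntwo v)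
    nlinarith
  have hq3 : q ^ 3 = (N v : ℝ) ^ (-(3 / 2 : ℝ)) := by
    rw [hq, Real.sqrt_eq_rpow, one_div, ← Real.rpow_neg hN.le, ← Real.rpow_natCast,
      ← Real.rpow_mul hN.le]
    norm_num
  have hb : ∀ j : ℕ, ‖(rzw k (((j : ℝ) + 1) * u) - rzw k u) * cP N α (v, j)‖ ≤
      (if j = 0 then 0 else if j = 1 then d * (4 + 2 * k) * (u / N v) else d * q ^ (j + 1)) := by
    intro j
    rw [norm_mul, Real.norm_eq_abs, Real.norm_eq_abs]
    have h5 := E.cP_abs (v, j)
    simp only at h5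
    rcases Nat.eq_zero_or_pos j with h | h
    · subst h
      rw [if_pos rfl]
      simp
    · rcases Nat.eq_or_lt_of_le h with h6 | h6
      · have h7 : j = 1 := by omega
        subst h7
        rw [if_neg (by norm_num), if_pos rfl]
        have h8 := rzw_diff hk hu0
        have h9 : (((1 : ℕ) : ℝ) + 1) * u = 2 * u := by push_cast; ring
        rw [h9]
        have h10 : |cP N α (v, 1)| ≤ d * (1 / (N v : ℝ)) := by
          rw [← hq2]
          exact h5
        calc |rzw k (2 * u) - rzw k u| * |cP N α (v, 1)| ≤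
              ((4 + 2 * k) * u) * (d * (1 / (N v : ℝ))) :=
              mul_le_mul h8 h10 (abs_nonneg _) (by positivity)
          _ = _ := by ring
      · rw [if_neg (by omega), if_neg (by omega)]
        have h8 : |rzw k (((j : ℝ) + 1) * u) - rzw k u| ≤ 1 := by
          have h9 := rzw_nonneg k (((j : ℝ) + 1) * u)
          have h10 := rzw_nonneg k u
          have h11 := rzw_le hk (u := ((j : ℝ) + 1) * u) (by positivity)
          have h12 := rzw_le hk hu0.le
          rw [abs_le]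
          constructor <;> linarith
        calc |rzw k (((j : ℝ) + 1) * u) - rzw k u| * |cP N α (v, j)| ≤ 1 * (d * q ^ (j + 1)) :=
              mul_le_mul h8 h5 (abs_nonneg _) zero_le_one
          _ = _ := one_mul _
  -- the majorant
  have hs : HasSum (fun j : ℕ => (if j = 0 then 0 else if j = 1 then d * (4 + 2 * k) * (u / N v)
      else d * q ^ (j + 1) : ℝ)) (d * (4 + 2 * k) * (u / N v) + d * q ^ 3 * (1 - q)⁻¹) := by
    have h5 := (hasSum_geometric_of_lt_one hq0.le (by linarith)).mul_left (d * q ^ 3)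
    have h6 : HasSum (fun j : ℕ => (if j + 2 = 0 then 0 else if j + 2 = 1 then
        d * (4 + 2 * k) * (u / N v) else d * q ^ (j + 2 + 1) : ℝ)) (d * q ^ 3 * (1 - q)⁻¹) := by
      refine h5.congr_fun fun j => ?_
      rw [if_neg (by omega), if_neg (by omega)]
      ring
    have h7 := (hasSum_nat_add_iff (f := fun j : ℕ => (if j = 0 then 0 else if j = 1 then
      d * (4 + 2 * k) * (u / N v) else d * q ^ (j + 1) : ℝ)) 2).1 h6
    rw [Finset.sum_range_succ, Finset.sum_range_one, if_pos rfl, if_neg (by norm_num), if_pos rfl,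
      zero_add] at h7
    rw [add_comm (d * q ^ 3 * (1 - q)⁻¹)] at h7
    exact h7
  have h5 := HasSum.norm_le_of_bounded h3 hs hb
  rw [Real.norm_eq_abs] at h5
  refine h5.trans ?_
  have h6 : (1 - q)⁻¹ ≤ 4 := by
    rw [inv_le_comm₀ (by linarith) (by norm_num)]
    linarith
  have h7 : d * q ^ 3 * (1 - q)⁻¹ ≤ d * q ^ 3 * 4 := by gcongr
  rw [← hq3]
  linarith

/-- the Riesz means over the primes and over the prime powers differ by a bounded function -/
theorem riesz_close (E : Sys N α) {k : ℝ} (hk : 0 < k) : ∃ M : ℝ, ∀ Y : ℝ, Real.exp 1 ≤ Y →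
    |Sv N α k Y + Mw N α (rzw k) 1 Y| ≤ M := by
  classical
  obtain ⟨M₁, hM₁, hM⟩ := log_bound E
  refine ⟨d * (4 + 2 * k) * M₁ + 4 * d * ∑' v, (N v : ℝ) ^ (-(3 / 2 : ℝ)), fun Y hY => ?_⟩
  have hY0 : 0 < Y := (Real.exp_pos 1).trans_le hY
  have hT : 1 ≤ Real.log Y := by
    rw [← Real.log_exp 1]
    exact Real.log_le_log (Real.exp_pos 1) hY
  have hT0 : 0 < Real.log Y := by linarith
  obtain ⟨n, hn⟩ := exists_nat_gt Y
  have hA := E.fin_le Y
  have e1 : Sv N α k Y = ∑ v ∈ hA.toFinset, rzw k (Real.log (N v) / Real.log Y) * cv N α v :=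
    finsum_mem_eq_finite_toFinset_sum
      (fun v : X => rzw k (Real.log (N v) / Real.log Y) * cv N α v) hA
  have hS := E.finS (Y ^ (1 : ℝ))
  have e3 : Mw N α (rzw k) 1 Y = ∑ v ∈ hA.toFinset, ∑ j ∈ Finset.range n,
      rzw k (((j : ℝ) + 1) * Real.log (N v) / Real.log Y) * cP N α (v, j) := by
    have h1 : Mw N α (rzw k) 1 Y = ∑ p ∈ hS.toFinset,
        rzw k (((p.2 : ℝ) + 1) * Real.log (N p.1) / Real.log Y) * cP N α p :=
      finsum_mem_eq_finite_toFinset_sum (fun p : X × ℕ =>
        rzw k (((p.2 : ℝ) + 1) * Real.log (N p.1) / Real.log Y) * cP N α p) hS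
    rw [h1, ← Finset.sum_product']
    refine Finset.sum_subset (fun p hp => ?_) fun p hp hp2 => ?_
    · rw [Set.Finite.mem_toFinset, Set.mem_ofPred_eq, Real.rpow_one] at hp
      rw [Finset.mem_product, Set.Finite.mem_toFinset, Finset.mem_range]
      have h3 : (N p.1 : ℝ) ≤ (N p.1 : ℝ) ^ (p.2 + 1) :=
        le_self_pow₀ (by have := E.Ntwo p.1; linarith) (by omega)
      exact ⟨h3.trans hp, Pool.Agent.TH270.MS.Tail.lt_of_pow E hn p.1 p.2 hp⟩
    · rw [Set.Finite.mem_toFinset, Set.mem_ofPred_eq, Real.rpow_one, not_le] at hp2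
      have h4 : 1 ≤ ((p.2 : ℝ) + 1) * Real.log (N p.1) / Real.log Y := by
        rw [le_div_iff₀ hT0, one_mul]
        have h5 := Real.log_lt_log hY0 hp2
        rw [Real.log_pow] at h5
        push_cast at h5
        linarith
      rw [rzw_zero hk h4, zero_mul]
  rw [e1, e3, ← Finset.sum_add_distrib]
  refine (Finset.abs_sum_le_sum_abs _ _).trans ?_
  have h2 : ∀ v ∈ hA.toFinset, |rzw k (Real.log (N v) / Real.log Y) * cv N α v +
      ∑ j ∈ Finset.range n, rzw k (((j : ℝ) + 1) * Real.log (N v) / Real.log Y) * cP N α (v, j)| ≤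
      d * (4 + 2 * k) * (Real.log (N v) / Real.log Y / N v) +
        4 * d * (N v : ℝ) ^ (-(3 / 2 : ℝ)) := by
    intro v _
    refine one_prime E hk hT0 v fun j hj => ?_
    have h3 : Y < (N v : ℝ) ^ (j + 1) := by
      by_contra h
      have := Pool.Agent.TH270.MS.Tail.lt_of_pow E hn v j (not_lt.1 h)
      omega
    have h5 := Real.log_lt_log hY0 h3
    rw [Real.log_pow] at h5
    push_cast at h5
    exact h5.le
  refine (Finset.sum_le_sum h2).trans ?_
  rw [Finset.sum_add_distrib, ← Finset.mul_sum, ← Finset.mul_sum]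
  refine add_le_add ?_ ?_
  · have h3 : ∑ v ∈ hA.toFinset, Real.log (N v) / Real.log Y / (N v : ℝ) ≤ M₁ := by
      have h4 : ∑ v ∈ hA.toFinset, Real.log (N v) / Real.log Y / (N v : ℝ) =
          (∑ v ∈ hA.toFinset, Real.log (N v) / (N v : ℝ)) / Real.log Y := by
        rw [Finset.sum_div]
        refine Finset.sum_congr rfl fun v _ => ?_
        ring
      rw [h4, div_le_iff₀ hT0]
      refine hM Y hY _ fun v hv => ?_
      rw [Set.Finite.mem_toFinset] at hv
      exact hv
    exact mul_le_mul_of_nonneg_left h3 (by positivity)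
  · refine mul_le_mul_of_nonneg_left ?_ (by positivity)
    exact (E.sum (3 / 2) (by norm_num)).sum_le_tsum _ fun v _ => by positivity

end Pool.Agent.Q5.MS
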