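import Pool.Agent.H21.L.R_pool_sql_team_seeded_2aa45f1a.Q5.MS.Lead

/-!
# The products over the windows `(x^l, x]` in logarithmic mean

One exponent `l` is enough for the order and the zeros.
-/

set_option autoImplicit false

open MeasureTheory Filter Topology Set Complex
open Pool.Agent.TH942.ES
open Pool.Agent.TH942.SL
open Pool.Agent.TH270.MS
open Pool.Agent.TH942.LS (Dat)
open Pool.Agent.TH270.RS (cS' dat')
open Pool.Agent.W263.BSD (LInt lap)

namespace Pool.Agent.Q5.MS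

section Dirichlet

variable {lam c : ℕ → ℝ} {δ σ : ℝ} {G₀ g : ℂ → ℂ} {k p κ : ℕ} {η C : ℝ}

/-- the window -/
noncomputable def Wn (lam c : ℕ → ℝ) (r l u : ℝ) : ℝ :=
  Sh lam c u - Sh lam c (l * u) + r * Real.log l

lemma wn_meas (D : Dat lam c δ σ) (r l : ℝ) : Measurable (Wn lam c r l) :=
  ((sh_meas D).sub ((sh_meas D).comp (measurable_const_mul l))).add_const _

lemma wn_le (D : Dat lam c δ σ) (r : ℝ) {l : ℝ} (hl1 : l < 1) :
    ∃ C : ℝ, 0 ≤ C ∧ ∀ u : ℝ, |(Ioi (0 : ℝ)).indicator (Wn lam c r l) u| ≤ C * Real.exp (σ * u) := by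
  set S₀ : ℝ := ∑' n, |c n| * Real.exp (-(σ * lam n)) with hS₀
  have h0 : 0 ≤ S₀ := tsum_nonneg fun n => by positivity
  refine ⟨2 * S₀ + |r * Real.log l|, by positivity, fun u => ?_⟩
  by_cases hu : u ∈ Ioi (0 : ℝ)
  · rw [indicator_of_mem hu]
    have hu0 : 0 < u := hu
    have h1 := sh_le D u
    have h2 := sh_le D (l * u)
    rw [← hS₀] at h1 h2
    have h3 : Real.exp (σ * (l * u)) ≤ Real.exp (σ * u) := by
      apply Real.exp_le_exp.2
      have h4 : l * u ≤ u := by nlinarith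
      exact mul_le_mul_of_nonneg_left h4 D.σ0.le
    have h5 : 1 ≤ Real.exp (σ * u) := Real.one_le_exp (mul_nonneg D.σ0.le hu0.le)
    have h6 := mul_le_mul_of_nonneg_right h3 h0
    have h7 := mul_le_mul_of_nonneg_left h5 (abs_nonneg (r * Real.log l))
    unfold Wn
    refine (abs_add_le _ _).trans ?_
    have h8 := abs_sub (Sh lam c u) (Sh lam c (l * u))
    nlinarith
  · rw [indicator_of_notMem hu, abs_zero]
    positivity

/-- one step of the induction -/
lemma lint_step (D : Dat lam c δ σ) (r c₀ : ℝ) {l : ℝ} (hl : 0 < l) (hl1 : l < 1) {x : ℝ}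
    (hx : 0 < x) (h1 : LInt ((Ioi (0 : ℝ)).indicator (Wn lam c r l)) x)
    (h2 : LInt (Er lam c r c₀) (x / l)) : LInt (Er lam c r c₀) x := by
  obtain ⟨C₁, hC₁, hb⟩ := er_le D r c₀
  set B : ℝ := 4 * |r| + C₁ * Real.exp (σ * (1 / l)) with hB
  have hB0 : 0 ≤ B := by positivity
  unfold LInt at h1 h2 ⊢
  have i2 : IntegrableOn (fun u : ℝ => Er lam c r c₀ (l * u) * Real.exp (-(x * u))) (Ioi 0) := by
    have h3 := (integrableOn_Ioi_comp_mul_left_iff
      (fun u : ℝ => Er lam c r c₀ u * Real.exp (-(x / l * u))) 0 hl).2 (by rwa [mul_zero])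
    refine h3.congr_fun (fun u _ => ?_) measurableSet_Ioi
    simp only
    congr 2
    field_simp
  have i3 : IntegrableOn (fun u : ℝ => B * Real.exp (-(x * u))) (Ioi 0) := by
    have h5 : IntegrableOn (fun u : ℝ => B * Real.exp (-x * u)) (Ioi 0) :=
      (integrableOn_exp_mul_Ioi (by linarith) 0).const_mul B
    simpa only [neg_mul] using h5
  have i4 := (h1.norm.add i2.norm).add i3
  refine Integrable.mono' i4 ((er_meas D r c₀).mul (by fun_prop)).aestronglyMeasurable ?_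
  filter_upwards [ae_restrict_mem measurableSet_Ioi] with u hu
  have hu0 : 0 < u := hu
  simp only [Pi.add_apply, norm_mul, Real.norm_eq_abs, abs_of_pos (Real.exp_pos _)]
  rw [indicator_of_mem hu, ← add_mul, ← add_mul]
  refine mul_le_mul_of_nonneg_right ?_ (Real.exp_pos _).le
  rcases le_or_gt (1 / l) u with h | h
  · have hlu : 1 ≤ l * u := by
      rw [div_le_iff₀ hl] at h
      linarith
    have hu1 : 1 ≤ u := by nlinarith
    have e1 := harm_near hu1
    have e2 := harm_near hlu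
    have e3 : 2 / u ≤ 2 := by
      rw [div_le_iff₀ hu0]
      linarith
    have e4 : 2 / (l * u) ≤ 2 := by
      rw [div_le_iff₀ (by linarith)]
      linarith
    have e5 : Er lam c r c₀ u = Wn lam c r l u + Er lam c r c₀ (l * u) +
        -(r * ((Sh lamh ch u - Real.log u - Real.eulerMascheroniConstant) -
          (Sh lamh ch (l * u) - Real.log (l * u) - Real.eulerMascheroniConstant))) := by
      unfold Er Wn
      rw [indicator_of_mem (show u ∈ Ioi (0 : ℝ) from hu0), indicator_of_mem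
        (show l * u ∈ Ioi (0 : ℝ) from mul_pos hl hu0), Real.log_mul hl.ne' hu0.ne']
      ring
    have e6 : |-(r * ((Sh lamh ch u - Real.log u - Real.eulerMascheroniConstant) -
          (Sh lamh ch (l * u) - Real.log (l * u) - Real.eulerMascheroniConstant)))| ≤ 4 * |r| := by
      rw [abs_neg, abs_mul]
      have e7 := abs_sub (Sh lamh ch u - Real.log u - Real.eulerMascheroniConstant)
        (Sh lamh ch (l * u) - Real.log (l * u) - Real.eulerMascheroniConstant)
      nlinarith [abs_nonneg r]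
    rw [e5]
    refine (abs_add_le _ _).trans ?_
    refine add_le_add (abs_add_le _ _) ?_
    refine e6.trans ?_
    rw [hB]
    have : 0 ≤ C₁ * Real.exp (σ * (1 / l)) := by positivity
    linarith
  · have e1 := hb u
    have e2 : Real.exp (σ * u) ≤ Real.exp (σ * (1 / l)) :=
      Real.exp_le_exp.2 (mul_le_mul_of_nonneg_left h.le D.σ0.le)
    have e3 := mul_le_mul_of_nonneg_left e2 hC₁
    have e4 := abs_nonneg (Wn lam c r l u)
    have e5 := abs_nonneg (Er lam c r c₀ (l * u))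
    have e6 := abs_nonneg r
    rw [hB]
    linarith

/-- integrability everywhere -/
lemma lint_all (D : Dat lam c δ σ) (r c₀ : ℝ) {l : ℝ} (hl : 0 < l) (hl1 : l < 1)
    (h1 : ∀ x : ℝ, 0 < x → LInt ((Ioi (0 : ℝ)).indicator (Wn lam c r l)) x) {x : ℝ} (hx : 0 < x) :
    LInt (Er lam c r c₀) x := by
  have key : ∀ n : ℕ, ∀ x : ℝ, 0 < x → σ < x * (1 / l) ^ n → LInt (Er lam c r c₀) x := by
    intro n
    induction n with
    | zero =>
      intro x _ h
      rw [pow_zero, mul_one] at h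
      exact er_int D r c₀ h
    | succ n ih =>
      intro x hx h
      refine lint_step D r c₀ hl hl1 hx (h1 x hx) (ih (x / l) (by positivity) ?_)
      rw [pow_succ] at h
      calc σ < x * ((1 / l) ^ n * (1 / l)) := h
        _ = x / l * (1 / l) ^ n := by ring
  have h2 : Tendsto (fun n : ℕ => x * (1 / l) ^ n) atTop atTop :=
    (tendsto_pow_atTop_atTop_of_one_lt ((one_lt_div hl).2 hl1)).const_mul_atTop hx
  obtain ⟨n, hn⟩ := (h2.eventually_gt_atTop σ).exists
  exact key n x hx hn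

lemma fint (D : Dat lam c δ σ) (r q : ℝ) {a b : ℝ} (ha : 0 < a) (hab : a ≤ b) :
    IntervalIntegrable (fun u : ℝ => Sh lam c u - r * Real.log u - q) volume a b := by
  have i1 : IntervalIntegrable (fun u : ℝ => Sh lam c u) volume a b := by
    rw [intervalIntegrable_iff_integrableOn_Ioc_of_le hab]
    set S₀ : ℝ := ∑' n, |c n| * Real.exp (-(σ * lam n)) with hS₀
    have h1 : IntegrableOn (fun u : ℝ => Real.exp (σ * u) * S₀) (Ioc a b) :=
      (Continuous.integrableOn_Icc (by fun_prop)).mono_set Ioc_subset_Icc_self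
    exact h1.mono' (sh_meas D).aestronglyMeasurable (Eventually.of_forall fun u => sh_le D u)
  have i2 : IntervalIntegrable (fun u : ℝ => r * Real.log u) volume a b := by
    refine ContinuousOn.intervalIntegrable_of_Icc hab ?_
    refine continuousOn_const.mul (Real.continuousOn_log.mono fun u hu => ?_)
    have : a ≤ u := hu.1
    show u ≠ 0
    linarith
  exact (i1.sub i2).sub intervalIntegrable_const

lemma wint (D : Dat lam c δ σ) (r : ℝ) {l : ℝ} (hl1 : l < 1) {a b : ℝ} (ha : 0 < a)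
    (hab : a ≤ b) : IntervalIntegrable (Wn lam c r l) volume a b := by
  obtain ⟨C, _, hC⟩ := wn_le (c := c) D r hl1
  rw [intervalIntegrable_iff_integrableOn_Ioc_of_le hab]
  have h1 : IntegrableOn (fun u : ℝ => C * Real.exp (σ * u)) (Ioc a b) :=
    (Continuous.integrableOn_Icc (by fun_prop)).mono_set Ioc_subset_Icc_self
  refine h1.mono' (wn_meas D r l).aestronglyMeasurable ?_
  filter_upwards [ae_restrict_mem measurableSet_Ioc] with u hu
  have hu0 : u ∈ Ioi (0 : ℝ) := ha.trans hu.1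
  have := hC u
  rwa [indicator_of_mem hu0] at this

/-- the windows of a function with small means have small means -/
lemma wn_small (D : Dat lam c δ σ) {r q l : ℝ} (hl : 0 < l) (hl1 : l < 1)
    (h : Tendsto (fun T : ℝ => (∫ u in (1 : ℝ)..T, |Sh lam c u - r * Real.log u - q|) / T) atTop
      (𝓝 0)) :
    Tendsto (fun T : ℝ => (∫ u in (1 : ℝ)..T, |Wn lam c r l u|) / T) atTop (𝓝 0) := by
  set f : ℝ → ℝ := fun u => Sh lam c u - r * Real.log u - q with hf
  set J : ℝ := ∫ u in l..1, |f u| with hJ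
  have h1 : Tendsto (fun T : ℝ => (∫ u in (1 : ℝ)..T, |f u|) / T + l⁻¹ * (J / T +
      (∫ u in (1 : ℝ)..T, |f u|) / T)) atTop (𝓝 0) := by
    have h2 : Tendsto (fun T : ℝ => J / T) atTop (𝓝 0) := tendsto_const_nhds.div_atTop tendsto_id
    have h3 := h.add ((h2.add h).const_mul l⁻¹)
    simpa using h3
  refine squeeze_zero' ?_ ?_ h1
  · filter_upwards [eventually_ge_atTop 1] with T hT
    exact div_nonneg (intervalIntegral.integral_nonneg hT fun u _ => abs_nonneg _) (by linarith)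
  · filter_upwards [eventually_ge_atTop 1] with T hT
    have hT0 : 0 < T := by linarith
    have hlT : l ≤ l * T := by nlinarith
    have hlT' : l * T ≤ T := by nlinarith
    have i1 : IntervalIntegrable (fun u => |f u|) volume 1 T := (fint D r q one_pos hT).abs
    have i0 : IntervalIntegrable (fun u => |f u|) volume l 1 := (fint D r q hl hl1.le).abs
    have i3 : IntervalIntegrable (fun u => |f (l * u)|) volume 1 T := by
      have h2 : IntervalIntegrable (fun u => |f u|) volume (l * 1) (l * T) := by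
        rw [mul_one]
        exact (fint D r q hl hlT).abs
      rw [intervalIntegrable_iff_integrableOn_Ioc_of_le hT]
      rw [mul_one, intervalIntegrable_iff_integrableOn_Ioc_of_le hlT] at h2
      have h4 : IntervalIntegrable (fun u => |f (l * u)|) volume (l / l) (l * T / l) :=
        ((intervalIntegrable_iff_integrableOn_Ioc_of_le hlT).2 h2).comp_mul_left
      rw [div_self hl.ne', mul_div_cancel_left₀ _ hl.ne',
        intervalIntegrable_iff_integrableOn_Ioc_of_le hT] at h4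
      exact h4
    have e1 : ∫ u in (1 : ℝ)..T, |Wn lam c r l u| ≤
        ∫ u in (1 : ℝ)..T, (|f u| + |f (l * u)|) := by
      refine intervalIntegral.integral_mono_on hT (wint D r hl1 one_pos hT).abs
        (i1.add i3) fun u hu => ?_
      have hu0 : 0 < u := by linarith [hu.1]
      have e2 : Wn lam c r l u = f u - f (l * u) := by
        rw [hf]
        simp only
        unfold Wn
        rw [Real.log_mul hl.ne' hu0.ne']
        ring
      rw [e2]
      exact abs_sub _ _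
    rw [intervalIntegral.integral_add i1 i3] at e1
    have e3 : ∫ u in (1 : ℝ)..T, |f (l * u)| = l⁻¹ * ∫ u in l..l * T, |f u| := by
      have := intervalIntegral.integral_comp_mul_left (a := 1) (b := T) (fun u => |f u|) hl.ne'
      rw [mul_one, smul_eq_mul] at this
      exact this
    have e4 : ∫ u in l..l * T, |f u| ≤ J + ∫ u in (1 : ℝ)..T, |f u| := by
      rw [hJ, intervalIntegral.integral_add_adjacent_intervals i0 i1]
      exact intervalIntegral.integral_mono_interval le_rfl hlT hlT'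
        (Eventually.of_forall fun u => abs_nonneg _) (i0.trans i1)
    have e5 : l⁻¹ * ∫ u in l..l * T, |f u| ≤ l⁻¹ * (J + ∫ u in (1 : ℝ)..T, |f u|) :=
      mul_le_mul_of_nonneg_left e4 (inv_nonneg.2 hl.le)
    rw [← add_div, ← mul_div_assoc, ← add_div]
    refine div_le_div_of_nonneg_right ?_ hT0.le
    linarith

/-- the windows of a zero free series -/
theorem wn_fwd (E : Cn lam c δ σ G₀ g k p κ η C) {r : ℝ} (h1 : ∀ s : ℂ, 0 < s.re → G₀ s ≠ 0)
    (h2 : (p : ℝ) = k + r) {l : ℝ} (hl : 0 < l) (hl1 : l < 1) :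
    Tendsto (fun T : ℝ => (∫ u in (1 : ℝ)..T, |Wn lam c r l u|) / T) atTop (𝓝 0) := by
  obtain ⟨q, -, h3⟩ := E.sq h1 h2
  exact wn_small E.D hl hl1 (small_of_sq E.D h3)

/-- bounded means of the windows give zero freeness -/
theorem wn_bwd (E : Cn lam c δ σ G₀ g k p κ η C) {r l B : ℝ} (hl : 0 < l) (hl1 : l < 1)
    (h : ∀ᶠ T : ℝ in atTop, ∫ u in (1 : ℝ)..T, |Wn lam c r l u| ≤ B * T) :
    ∀ s : ℂ, 0 < s.re → G₀ s ≠ 0 := by
  have D := E.D
  have h1 : ∀ x : ℝ, 0 < x → LInt ((Ioi (0 : ℝ)).indicator (Wn lam c r l)) x := by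
    obtain ⟨C₁, -, hb⟩ := wn_le (c := c) D r hl1
    refine (mean_lap ((wn_meas D r l).indicator measurableSet_Ioi) hb
      (by positivity : 0 < |B| + 1) ?_).1
    filter_upwards [h, eventually_ge_atTop 1] with T h1 h2
    have h3 : ∫ u in (1 : ℝ)..T, |(Ioi (0 : ℝ)).indicator (Wn lam c r l) u| =
        ∫ u in (1 : ℝ)..T, |Wn lam c r l u| := by
      refine intervalIntegral.integral_congr fun u hu => ?_
      rw [uIcc_of_le h2] at hu
      have : u ∈ Ioi (0 : ℝ) := lt_of_lt_of_le one_pos hu.1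
      simp only [indicator_of_mem this]
    rw [h3]
    have h5 : B * T ≤ |B| * T := mul_le_mul_of_nonneg_right (le_abs_self B) (by linarith)
    linarith
  have h2 : ∀ x : ℝ, 0 < x → LInt (Er lam c r 0) x := fun x hx =>
    lint_all D r 0 hl hl1 h1 hx
  exact (conv D (fun s hs => E.hG s (by linarith [E.hη])) E.hexp E.hg E.hg0 E.near h2).1

lemma wn_shift (D : Dat lam c δ σ) (r r' : ℝ) {l : ℝ} (hl1 : l < 1) {T : ℝ} (hT : 1 ≤ T) :
    ∫ u in (1 : ℝ)..T, |Wn lam c r l u| ≤ (∫ u in (1 : ℝ)..T, |Wn lam c r' l u|) +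
      |(r - r') * Real.log l| * T := by
  have j1 := (wint (c := c) D r hl1 one_pos hT).abs
  have j2 := (wint (c := c) D r' hl1 one_pos hT).abs
  have h7 : ∫ u in (1 : ℝ)..T, |Wn lam c r l u| ≤
      ∫ u in (1 : ℝ)..T, (|Wn lam c r' l u| + |(r - r') * Real.log l|) := by
    refine intervalIntegral.integral_mono_on hT j1 (j2.add intervalIntegrable_const) fun u _ => ?_
    have h8 : Wn lam c r l u = Wn lam c r' l u + (r - r') * Real.log l := by
      unfold Wn
      ring
    rw [h8]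
    exact abs_add_le _ _
  rw [intervalIntegral.integral_add j2 intervalIntegrable_const, intervalIntegral.integral_const,
    smul_eq_mul] at h7
  have h8 := abs_nonneg ((r - r') * Real.log l)
  nlinarith

/-- **The criterion with the windows: bounded means are enough.** -/
theorem cn_window_bdd (E : Cn lam c δ σ G₀ g k p κ η C) : List.TFAE [
    ∀ s : ℂ, 0 < s.re → G₀ s ≠ 0,
    ∃ l : ℝ, 0 < l ∧ l < 1 ∧ ∃ B : ℝ, ∀ᶠ T : ℝ in atTop,
      ∫ u in (1 : ℝ)..T, |Wn lam c 0 l u| ≤ B * T,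
    ∀ l : ℝ, 0 < l → l < 1 → ∃ B : ℝ, ∀ᶠ T : ℝ in atTop,
      ∫ u in (1 : ℝ)..T, |Wn lam c 0 l u| ≤ B * T] := by
  tfae_have 1 → 3 := by
    intro h l hl hl1
    have h1 := wn_fwd E (r := p - k) h (by ring) hl hl1
    refine ⟨1 + |(0 - ((p : ℝ) - k)) * Real.log l|, ?_⟩
    filter_upwards [h1.eventually (gt_mem_nhds one_pos), eventually_ge_atTop 1] with T h2 h3
    rw [div_lt_one (by linarith)] at h2
    have h4 := wn_shift E.D 0 ((p : ℝ) - k) hl1 h3
    linarith
  tfae_have 3 → 2 := fun h => ⟨1 / 2, by norm_num, by norm_num, h _ (by norm_num) (by norm_num)⟩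
  tfae_have 2 → 1 := fun ⟨l, hl, hl1, B, h⟩ => wn_bwd E hl hl1 h
  tfae_finish

/-- **The criterion with one window.** -/
theorem cn_window_one (E : Cn lam c δ σ G₀ g k p κ η C) (r : ℝ) {l : ℝ} (hl : 0 < l)
    (hl1 : l < 1) :
    Tendsto (fun T : ℝ => (∫ u in (1 : ℝ)..T, |Wn lam c r l u|) / T) atTop (𝓝 0) ↔
      (∀ s : ℂ, 0 < s.re → G₀ s ≠ 0) ∧ (p : ℝ) = k + r := by
  have D := E.D
  refine ⟨fun h => ?_, fun h => wn_fwd E h.1 h.2 hl hl1⟩
  have h3 : ∀ s : ℂ, 0 < s.re → G₀ s ≠ 0 := by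
    refine wn_bwd E (r := r) (B := 1) hl hl1 ?_
    filter_upwards [h.eventually (gt_mem_nhds one_pos), eventually_ge_atTop 1] with T h1 h2
    rw [div_lt_one (by linarith)] at h1
    linarith
  refine ⟨h3, ?_⟩
  set r' : ℝ := p - k with hr'
  have h4 := wn_fwd E (r := r') h3 (by rw [hr']; ring) hl hl1
  have h5 := h.add h4
  rw [add_zero] at h5
  have h6 : ∀ᶠ T : ℝ in atTop, |(r - r') * Real.log l| * (1 - 1 / T) ≤
      (∫ u in (1 : ℝ)..T, |Wn lam c r l u|) / T + (∫ u in (1 : ℝ)..T, |Wn lam c r' l u|) / T := by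
    filter_upwards [eventually_ge_atTop 1] with T hT
    have hT0 : 0 < T := by linarith
    have j1 := (wint (c := c) D r hl1 one_pos hT).abs
    have j2 := (wint (c := c) D r' hl1 one_pos hT).abs
    rw [← add_div, ← intervalIntegral.integral_add j1 j2, le_div_iff₀ hT0]
    have h7 : ∫ _ in (1 : ℝ)..T, |(r - r') * Real.log l| ≤
        ∫ u in (1 : ℝ)..T, (|Wn lam c r l u| + |Wn lam c r' l u|) := by
      refine intervalIntegral.integral_mono_on hT intervalIntegrable_const (j1.add j2)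
        fun u _ => ?_
      have h8 : (r - r') * Real.log l = Wn lam c r l u - Wn lam c r' l u := by
        unfold Wn
        ring
      rw [h8]
      exact abs_sub _ _
    rw [intervalIntegral.integral_const, smul_eq_mul] at h7
    refine le_trans (le_of_eq ?_) h7
    field_simp
  have h7 : Tendsto (fun T : ℝ => |(r - r') * Real.log l| * (1 - 1 / T)) atTop
      (𝓝 |(r - r') * Real.log l|) := by
    have h8 : Tendsto (fun T : ℝ => 1 / T) atTop (𝓝 0) := by
      simpa using tendsto_inv_atTop_zero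
    have h9 := (h8.const_sub 1).const_mul |(r - r') * Real.log l|
    rwa [sub_zero, mul_one] at h9
  have h8 := le_of_tendsto_of_tendsto h7 h5 h6
  have h9 : (r - r') * Real.log l = 0 := abs_eq_zero.1 (le_antisymm h8 (abs_nonneg _))
  have h10 : Real.log l ≠ 0 := (Real.log_neg hl hl1).ne
  have h11 : r = r' := by
    rcases mul_eq_zero.1 h9 with h | h
    · linarith
    · exact absurd h h10
  rw [h11, hr']
  ring

end Dirichlet

section System

variable {X : Type} {d : ℕ} {N : X → ℕ} {α : X → Fin d → ℂ} {Ψ G₀ : ℂ → ℂ} {k κ : ℕ} {η C : ℝ}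

/-- the deviation of the windows, prime powers -/
noncomputable def WL (N : X → ℕ) (α : X → Fin d → ℂ) (ρ l y : ℝ) : ℝ :=
  Pl N α y - Pl N α (y ^ l) - ρ * Real.log l

/-- the deviation of the windows, primes -/
noncomputable def WV (N : X → ℕ) (α : X → Fin d → ℂ) (ρ l y : ℝ) : ℝ :=
  Pv N α y - Pv N α (y ^ l) + ρ * Real.log l

theorem wl_eq {e : X × ℕ → ℕ} (E : Sys N α) (he : Function.Injective e) (ρ l : ℝ) {y : ℝ}
    (hy : 0 < y) : WL N α ρ l y = -Wn (lamS N e) (cS' N α e) ρ l (Real.log y) := by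
  unfold WL Wn
  rw [sh_eq E he, sh_eq E he, Real.exp_log hy, Real.rpow_def_of_pos hy, mul_comm l]
  ring

theorem wl_mean {e : X × ℕ → ℕ} (E : Sys N α) (he : Function.Injective e) (ρ l : ℝ) :
    Tendsto (fun Y : ℝ => (∫ y in Real.exp 1..Y, |WL N α ρ l y| / y) / Real.log Y) atTop (𝓝 0) ↔
      Tendsto (fun T : ℝ => (∫ u in (1 : ℝ)..T, |Wn (lamS N e) (cS' N α e) ρ l u|) / T) atTop
        (𝓝 0) := by
  rw [tendsto_exp_iff]
  refine tendsto_congr' ?_
  filter_upwards [eventually_ge_atTop 1] with T hT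
  rw [Real.log_exp, ← cov_ii _ hT]
  congr 1
  refine intervalIntegral.integral_congr fun Y hY => ?_
  rw [uIcc_of_le (Real.exp_le_exp.2 hT)] at hY
  show |WL N α ρ l Y| / Y = |Wn (lamS N e) (cS' N α e) ρ l (Real.log Y)| / Y
  rw [wl_eq E he ρ l ((Real.exp_pos 1).trans_le hY.1), abs_neg]

/-- **One window determines order and zeros**: prime powers -/
theorem window_pl (H : Mc N α Ψ G₀ k κ η C) (ρ : ℝ) {l : ℝ} (hl : 0 < l) (hl1 : l < 1) :
    Tendsto (fun Y : ℝ => (∫ y in Real.exp 1..Y, |WL N α ρ l y| / y) / Real.log Y) atTop (𝓝 0) ↔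
    (∀ s : ℂ, 0 < s.re → Ψ s ≠ 0) ∧ ∃ m : ℤ, ρ = m ∧ meromorphicOrderAt Ψ 0 = m := by
  obtain ⟨e, g, p, he, Q⟩ := H.cn
  have hord := (mero_of Q.hg Q.hg0 (local_form H.hη H.hΨ Q.near)).2
  have t := cn_window_one Q ρ hl hl1
  rw [H.zf] at t
  have e1 : (p : ℝ) = (k : ℕ) + ρ ↔ ∃ m : ℤ, ρ = m ∧ meromorphicOrderAt Ψ 0 = m := by
    rw [hord]
    constructor
    · intro h
      refine ⟨(p : ℤ) - k, ?_, rfl⟩
      push_cast
      linarith
    · rintro ⟨m, h1, h2⟩
      have h3 : (p : ℤ) - (k : ℤ) = m := by exact_mod_cast h2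
      rw [h1, ← h3]
      push_cast
      ring
  rw [e1] at t
  rw [wl_mean H.E he]
  exact t

theorem wl_bdd_iff {e : X × ℕ → ℕ} (E : Sys N α) (he : Function.Injective e) (ρ l B : ℝ) :
    (∀ᶠ Y : ℝ in atTop, ∫ y in Real.exp 1..Y, |WL N α ρ l y| / y ≤ B * Real.log Y) ↔
      ∀ᶠ T : ℝ in atTop, ∫ u in (1 : ℝ)..T, |Wn (lamS N e) (cS' N α e) ρ l u| ≤ B * T := by
  rw [eventually_exp_iff (f := fun Y => ∫ y in Real.exp 1..Y, |WL N α ρ l y| / y ≤
    B * Real.log Y)]
  refine eventually_congr ?_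
  filter_upwards [eventually_ge_atTop 1] with T hT
  have : ∫ y in Real.exp 1..Real.exp T, |WL N α ρ l y| / y =
      ∫ u in (1 : ℝ)..T, |Wn (lamS N e) (cS' N α e) ρ l u| := by
    rw [← cov_ii _ hT]
    refine intervalIntegral.integral_congr fun Y hY => ?_
    rw [uIcc_of_le (Real.exp_le_exp.2 hT)] at hY
    show |WL N α ρ l Y| / Y = |Wn (lamS N e) (cS' N α e) ρ l (Real.log Y)| / Y
    rw [wl_eq E he ρ l ((Real.exp_pos 1).trans_le hY.1), abs_neg]
  rw [Real.log_exp, this]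

theorem bm_pl_rpow (H : Mc N α Ψ G₀ k κ η C) {l : ℝ} (hl1 : l ≤ 1) :
    BM fun y => Pl N α (y ^ l) := by
  obtain ⟨e, g, p, he, Q⟩ := H.cn
  set lam := lamS N e
  set c := cS' N α e
  have hm : Measurable fun y : ℝ => -Sh lam c (l * Real.log y) :=
    ((sh_meas Q.D).comp (Real.measurable_log.const_mul l)).neg
  have heq : ∀ y : ℝ, 0 < y → -Sh lam c (l * Real.log y) = Pl N α (y ^ l) := by
    intro y hy
    rw [sh_eq H.E he, Real.rpow_def_of_pos hy, mul_comm l, neg_neg]
  refine ⟨?_, fun Y => ?_⟩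
  · refine hm.aestronglyMeasurable.congr ?_
    filter_upwards [ae_restrict_mem measurableSet_Ioi] with y hy
    exact heq y ((Real.exp_pos 1).trans hy)
  · set S₀ : ℝ := ∑' n, |c n| * Real.exp (-(1 * lam n)) with hS₀
    have h0 : 0 ≤ S₀ := tsum_nonneg fun n => by positivity
    refine ⟨Real.exp (1 * Real.log Y) * S₀, fun y h1 h2 => ?_⟩
    have hy0 : 0 < y := (Real.exp_pos 1).trans_le h1
    show |Pl N α (y ^ l)| ≤ _
    rw [← heq y hy0, abs_neg]
    refine (sh_le Q.D _).trans ?_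
    rw [← hS₀]
    refine mul_le_mul_of_nonneg_right (Real.exp_le_exp.2 ?_) h0
    rw [one_mul, one_mul]
    have h3 := one_le_log h1
    have h4 := Real.log_le_log hy0 h2
    nlinarith

theorem bm_pv_rpow (E : Sys N α) {l : ℝ} (hl1 : l ≤ 1) : BM fun y => Pv N α (y ^ l) := by
  classical
  have hfl : ∀ y : ℝ, 0 ≤ y → Pv N α y = Pv N α ((⌊y⌋₊ : ℕ) : ℝ) := by
    intro y hy0
    unfold Pv
    refine finsum_congr fun v => ?_
    have : ((N v : ℝ) ≤ y) = ((N v : ℝ) ≤ ((⌊y⌋₊ : ℕ) : ℝ)) := by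
      rw [Nat.cast_le, Nat.le_floor_iff hy0]
    rw [this]
  refine ⟨?_, fun Y => ⟨∑ v ∈ (E.fin_le Y).toFinset, |cv N α v|, fun y h1 hy => ?_⟩⟩
  · have h1 : Measurable fun y : ℝ => Pv N α ((⌊y ^ l⌋₊ : ℕ) : ℝ) :=
      (measurable_from_nat (f := fun n : ℕ => Pv N α (n : ℝ))).comp
        (Nat.measurable_floor.comp (measurable_id.pow_const l))
    refine h1.aestronglyMeasurable.congr ?_
    filter_upwards [ae_restrict_mem measurableSet_Ioi] with y hy
    have hy0 : 0 < y := (Real.exp_pos 1).trans hy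
    exact (hfl _ (by positivity)).symm
  · show |Pv N α (y ^ l)| ≤ _
    rw [pv_eq E]
    refine (Finset.abs_sum_le_sum_abs _ _).trans ?_
    refine Finset.sum_le_sum_of_subset_of_nonneg (fun v hv => ?_) fun _ _ _ => abs_nonneg _
    rw [Set.Finite.mem_toFinset] at hv ⊢
    have hy1 : 1 ≤ y := by linarith [Real.add_one_le_exp 1]
    have h2 : y ^ l ≤ y := by
      calc y ^ l ≤ y ^ (1 : ℝ) := Real.rpow_le_rpow_of_exponent_le hy1 hl1
        _ = y := Real.rpow_one y
    exact (le_trans hv h2).trans hy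

/-- the windows over the primes and over the prime powers -/
theorem wl_iff_wv (H : Mc N α Ψ G₀ k κ η C) (ρ : ℝ) {c : ℝ} (hc : Tendsto (Sq N α) atTop (𝓝 c))
    {l : ℝ} (hl : 0 < l) (hl1 : l < 1) :
    Tendsto (fun Y : ℝ => (∫ y in Real.exp 1..Y, |WL N α ρ l y| / y) / Real.log Y) atTop (𝓝 0) ↔
    Tendsto (fun Y : ℝ => (∫ y in Real.exp 1..Y, |WV N α ρ l y| / y) / Real.log Y) atTop
      (𝓝 0) := by
  have b1 : BM (WL N α ρ l) := ((bm_pl H).sub (bm_pl_rpow H hl1.le)).sub (BM.const _)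
  have b2 : BM (WV N α ρ l) := ((bm_pv H.E).sub (bm_pv_rpow H.E hl1.le)).add (BM.const _)
  have h1 := tail_lim H.E hc
  have h2 : Tendsto (fun y : ℝ => y ^ l) atTop atTop := tendsto_rpow_atTop hl
  have h3 := (h1.comp h2).sub h1
  rw [sub_self] at h3
  have h4 : Tendsto (fun y => -WL N α ρ l y - WV N α ρ l y) atTop (𝓝 0) := by
    refine h3.congr fun y => ?_
    simp only [Function.comp_apply]
    unfold WL WV
    ring
  have h5 := lmean_iff b1.neg.li b2.li h4
  simp only [abs_neg] at h5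
  exact h5

/-- **One window determines order and zeros**: primes -/
theorem window_pv (H : Mc N α Ψ G₀ k κ η C) (ρ : ℝ) {c : ℝ} (hc : Tendsto (Sq N α) atTop (𝓝 c))
    {l : ℝ} (hl : 0 < l) (hl1 : l < 1) :
    Tendsto (fun Y : ℝ => (∫ y in Real.exp 1..Y, |WV N α ρ l y| / y) / Real.log Y) atTop (𝓝 0) ↔
    (∀ s : ℂ, 0 < s.re → Ψ s ≠ 0) ∧ ∃ m : ℤ, ρ = m ∧ meromorphicOrderAt Ψ 0 = m := by
  rw [← wl_iff_wv H ρ hc hl hl1]
  exact window_pl H ρ hl hl1

/-- the windows of `log P` and of the sum over the prime powers have bounded difference -/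
theorem close_w (H : Mc N α Ψ G₀ k κ η C) (ρ : ℝ) {l : ℝ} (hl : 0 < l) (hl1 : l < 1) :
    ∃ M : ℝ, ∀ y : ℝ, Real.exp 1 ≤ y → |WV N α ρ l y - -WL N α ρ l y| ≤ M := by
  obtain ⟨M, hM⟩ := close H.E
  obtain ⟨M', hM'⟩ := ((bm_pv_rpow H.E hl1.le).add (bm_pl_rpow H hl1.le)).2 (Real.exp (1 / l))
  refine ⟨M + (|M| + |M'|), fun y hy => ?_⟩
  have hy0 : 0 < y := (Real.exp_pos 1).trans_le hy
  have h1 : WV N α ρ l y - -WL N α ρ l y =
      (Pv N α y + Pl N α y) - (Pv N α (y ^ l) + Pl N α (y ^ l)) := by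
    unfold WV WL
    ring
  rw [h1]
  refine (abs_sub _ _).trans (add_le_add (hM y hy) ?_)
  rcases le_or_gt y (Real.exp (1 / l)) with h | h
  · have := hM' y hy h
    have h2 := le_abs_self M'
    have h3 := abs_nonneg M
    linarith
  · have h4 : Real.exp 1 ≤ y ^ l := by
      rw [Real.rpow_def_of_pos hy0]
      apply Real.exp_le_exp.2
      have h5 : 1 / l < Real.log y := (Real.lt_log_iff_exp_lt hy0).2 h
      rw [div_lt_iff₀ hl] at h5
      exact h5.le
    have := hM _ h4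
    have h2 := le_abs_self M
    have h3 := abs_nonneg M'
    linarith

/-- **Bounded windows are enough**: prime powers and primes -/
theorem window_bdd (H : Mc N α Ψ G₀ k κ η C) : List.TFAE [
    ∀ s : ℂ, 0 < s.re → Ψ s ≠ 0,
    ∃ l : ℝ, 0 < l ∧ l < 1 ∧ ∃ B : ℝ, ∀ᶠ Y : ℝ in atTop,
      ∫ y in Real.exp 1..Y, |WL N α 0 l y| / y ≤ B * Real.log Y,
    ∀ l : ℝ, 0 < l → l < 1 → ∃ B : ℝ, ∀ᶠ Y : ℝ in atTop,
      ∫ y in Real.exp 1..Y, |WL N α 0 l y| / y ≤ B * Real.log Y,
    ∃ l : ℝ, 0 < l ∧ l < 1 ∧ ∃ B : ℝ, ∀ᶠ Y : ℝ in atTop,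
      ∫ y in Real.exp 1..Y, |WV N α 0 l y| / y ≤ B * Real.log Y,
    ∀ l : ℝ, 0 < l → l < 1 → ∃ B : ℝ, ∀ᶠ Y : ℝ in atTop,
      ∫ y in Real.exp 1..Y, |WV N α 0 l y| / y ≤ B * Real.log Y] := by
  obtain ⟨e, g, p, he, Q⟩ := H.cn
  have t := cn_window_bdd Q
  rw [H.zf] at t
  have hsw : ∀ l : ℝ, 0 < l → l < 1 → ((∃ B : ℝ, ∀ᶠ Y : ℝ in atTop,
      ∫ y in Real.exp 1..Y, |WL N α 0 l y| / y ≤ B * Real.log Y) ↔
      ∃ B : ℝ, ∀ᶠ Y : ℝ in atTop, ∫ y in Real.exp 1..Y, |WV N α 0 l y| / y ≤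
        B * Real.log Y) := by
    intro l hl hl1
    obtain ⟨M, hM⟩ := close_w H 0 hl hl1
    have b1 : BM (WL N α 0 l) := ((bm_pl H).sub (bm_pl_rpow H hl1.le)).sub (BM.const _)
    have b2 : BM (WV N α 0 l) := ((bm_pv H.E).sub (bm_pv_rpow H.E hl1.le)).add (BM.const _)
    constructor
    · intro h
      refine bmean_of b1.neg.li b2.li (M := M) (fun x hx => ?_) ?_
      · rw [abs_sub_comm]
        exact hM x hx
      · simp only [abs_neg]
        exact h
    · intro h
      have h1 := bmean_of b2.li b1.neg.li hM h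
      simpa only [abs_neg] using h1
  tfae_have 1 ↔ 2 := by
    simp only [wl_bdd_iff H.E he]
    exact t.out 0 1
  tfae_have 1 ↔ 3 := by
    simp only [wl_bdd_iff H.E he]
    exact t.out 0 2
  tfae_have 2 → 4 := fun ⟨l, hl, hl1, h⟩ => ⟨l, hl, hl1, (hsw l hl hl1).1 h⟩
  tfae_have 4 → 2 := fun ⟨l, hl, hl1, h⟩ => ⟨l, hl, hl1, (hsw l hl hl1).2 h⟩
  tfae_have 3 → 5 := fun h l hl hl1 => (hsw l hl hl1).1 (h l hl hl1)
  tfae_have 5 → 3 := fun h l hl hl1 => (hsw l hl hl1).2 (h l hl hl1)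
  tfae_finish

end System

end Pool.Agent.Q5.MS
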